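import Pool.Agent.helper69.Kam.Main

set_option autoImplicit false

open MvPolynomial

namespace Pool.Agent.Results.MP_ca28bb_gt.MonoIffRankLeFour

/-- The total Steenrod square `Sq_t = ∑ t^k Sq^k` on `P_d = F_2[x_1,…,x_d]`: the ring homomorphism
`P_d → P_d[t]` with `x_i ↦ x_i + t x_i ^ 2`. -/
noncomputable def SqT (d : ℕ) :
    MvPolynomial (Fin d) (ZMod 2) →ₐ[ZMod 2] Polynomial (MvPolynomial (Fin d) (ZMod 2)) :=
  aeval (fun i => Polynomial.C (X i) + Polynomial.X * Polynomial.C (X i ^ 2))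

/-- The Steenrod square `Sq^k f`, for `f ∈ P_d`: the coefficient of `t ^ k` in the total square. -/
noncomputable def Sq (d k : ℕ) (f : MvPolynomial (Fin d) (ZMod 2)) :
    MvPolynomial (Fin d) (ZMod 2) :=
  (SqT d f).coeff k

/-- The left action of a matrix `w` on polynomials, by the substitution
`x_j ↦ ∑ i, w i j • x_i`. -/
noncomputable def act {d : ℕ} (w : Matrix (Fin d) (Fin d) (ZMod 2)) :
    MvPolynomial (Fin d) (ZMod 2) →ₐ[ZMod 2] MvPolynomial (Fin d) (ZMod 2) :=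
  aeval (fun j => ∑ i, C (w i j) * X i)

/-- `IsPrim d n θ`: the linear functional `θ` on `P_d` is an element of `PH_n`. That is, `θ` lies in
the degree-`n` part `H_n` of the graded dual of `P_d` (it vanishes on homogeneous polynomials of
degree `m ≠ n`), and it is annihilated by all dual Steenrod operations `Sq^k_*`, `k > 0`
(`θ ∘ Sq^k = 0`). -/
structure IsPrim (d n : ℕ) (θ : Module.Dual (ZMod 2) (MvPolynomial (Fin d) (ZMod 2))) : Prop where
  degree : ∀ m, m ≠ n → ∀ f : MvPolynomial (Fin d) (ZMod 2), f.IsHomogeneous m → θ f = 0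
  kills : ∀ k, 0 < k → ∀ f : MvPolynomial (Fin d) (ZMod 2), θ (Sq d k f) = 0

/-- The subspace of `PH_n` spanned by all `θ·g - θ`, where `θ ∈ PH_n`, `g ∈ GL_d(F_2)` and
`θ·g = θ ∘ g` is the induced right action. The coinvariants `F_2 ⊗_{GL_d} PH_n` are the quotient
of `PH_n` by this subspace. -/
noncomputable def Aug (d n : ℕ) :
    Submodule (ZMod 2) (Module.Dual (ZMod 2) (MvPolynomial (Fin d) (ZMod 2))) :=
  Submodule.span (ZMod 2)
    {ψ | ∃ g : Matrix.GeneralLinearGroup (Fin d) (ZMod 2), ∃ θ, IsPrim d n θ ∧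
      ψ = θ ∘ₗ (act (g : Matrix (Fin d) (Fin d) (ZMod 2))).toLinearMap - θ}

/-- The exponent vector `(t_i - 1)/2`. -/
noncomputable def halve {d : ℕ} (t : Fin d →₀ ℕ) : Fin d →₀ ℕ :=
  t.mapRange (fun m => (m - 1) / 2) (by simp)

/-- The linear map `P_d → P_d` sending a monomial `x^t` to `x^{(t-1)/2}` if all the exponents
`t_i` are odd, and to `0` otherwise. Kameko's map `PH_n → PH_{d+2n}` is `θ ↦ θ ∘ kappa`; it sends
the dual basis element `a^{(s)}` to `a^{(2s+1)}` (see `kameko_dual_basis`). -/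
noncomputable def kappa (d : ℕ) :
    MvPolynomial (Fin d) (ZMod 2) →ₗ[ZMod 2] MvPolynomial (Fin d) (ZMod 2) :=
  (MvPolynomial.basisMonomials (Fin d) (ZMod 2)).constr (ZMod 2)
    (fun t => if ∀ i, Odd (t i) then monomial (halve t) 1 else 0)

/-- Kameko's squaring operation
`F_2 ⊗_{GL_d} PH_n = PH_n / Aug → PH_{d+2n} / Aug = F_2 ⊗_{GL_d} PH_{d+2n}` is injective (its
kernel is zero): every `θ ∈ PH_n` whose image under Kameko's map has class zero in the coinvariants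
in degree `d + 2n` has itself class zero in the coinvariants in degree `n`. -/
def SquaringInjective (d n : ℕ) : Prop :=
  ∀ θ : Module.Dual (ZMod 2) (MvPolynomial (Fin d) (ZMod 2)),
    IsPrim d n θ → θ ∘ₗ kappa d ∈ Aug d (d + 2 * n) → θ ∈ Aug d n

/-! ### Checks of the definitions -/

/-- In the dual monomial basis, Kameko's map is `a^{(s)} ↦ a^{(2s+1)}`. -/
lemma kameko_dual_basis {d : ℕ} (s : Fin d →₀ ℕ) :
    (lcoeff (ZMod 2) s) ∘ₗ kappa d =
      lcoeff (ZMod 2) (2 • s + Finsupp.equivFunOnFinite.symm (fun _ => 1)) :=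
  Pool.Agent.helper69.Kam.kameko_dual_basis s

lemma isPrim_iff {d n : ℕ} {θ : Module.Dual (ZMod 2) (MvPolynomial (Fin d) (ZMod 2))} :
    IsPrim d n θ ↔ Pool.Agent.helper69.Kam.IsPrim d n θ :=
  ⟨fun h => ⟨h.degree, h.kills⟩, fun h => ⟨h.degree, h.kills⟩⟩

/-- Kameko's map maps `PH_n` to `PH_{d+2n}`. -/
lemma kameko_mem {d n : ℕ} {θ : Module.Dual (ZMod 2) (MvPolynomial (Fin d) (ZMod 2))}
    (h : IsPrim d n θ) : IsPrim d (d + 2 * n) (θ ∘ₗ kappa d) :=
  isPrim_iff.2 (isPrim_iff.1 h).kappa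

lemma aug_eq (d n : ℕ) : Aug d n = Pool.Agent.helper69.Kam.Aug d n := by
  rw [Aug, Pool.Agent.helper69.Kam.Aug]
  congr 1
  ext ψ
  constructor
  · rintro ⟨g, θ, hθ, rfl⟩
    exact ⟨g, θ, isPrim_iff.1 hθ, rfl⟩
  · rintro ⟨g, θ, hθ, rfl⟩
    exact ⟨g, θ, isPrim_iff.2 hθ, rfl⟩

/-- The subspace `Aug d n` is contained in `PH_n`. -/
lemma isPrim_of_mem_aug {d n : ℕ} {θ : Module.Dual (ZMod 2) (MvPolynomial (Fin d) (ZMod 2))}
    (h : θ ∈ Aug d n) : IsPrim d n θ := by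
  rw [aug_eq] at h
  exact isPrim_iff.2 (Pool.Agent.helper69.Kam.Aug_isPrim h)

/-- Kameko's map maps `Aug d n` to `Aug d (d + 2n)`, so that it induces a map of the
coinvariants. -/
lemma kameko_aug {d n : ℕ} {θ : Module.Dual (ZMod 2) (MvPolynomial (Fin d) (ZMod 2))}
    (h : θ ∈ Aug d n) : θ ∘ₗ kappa d ∈ Aug d (d + 2 * n) := by
  rw [aug_eq] at h ⊢
  exact Pool.Agent.helper69.Kam.Aug_kappa h

lemma injective_iff (d n : ℕ) :
    SquaringInjective d n ↔ Pool.Agent.helper69.Kam.KInj d n := by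
  unfold SquaringInjective Pool.Agent.helper69.Kam.KInj
  simp only [isPrim_iff, aug_eq]
  rfl

/-- For every `d ≥ 1`: Kameko's squaring operation `F_2 ⊗_{GL_d} PH_n → F_2 ⊗_{GL_d} PH_{d+2n}` is
injective in all positive degrees `n` if and only if `d ≤ 4`; it is injective in degree `n = 0` if
and only if `d ≤ 3`; and if `d ≥ 5`, then it is not injective in degree `2^j - 1`, for every
`j ≥ d`. -/
theorem result (d : ℕ) (hd : 1 ≤ d) :
    ((∀ n, 1 ≤ n → SquaringInjective d n) ↔ d ≤ 4) ∧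
    (SquaringInjective d 0 ↔ d ≤ 3) ∧
    (5 ≤ d → ∀ j, d ≤ j → ¬ SquaringInjective d (2 ^ j - 1)) := by
  simp only [injective_iff]
  obtain ⟨h1, h2⟩ := Pool.Agent.helper69.Kam.main d hd
  exact ⟨h1, h2, fun h j hj => Pool.Agent.helper69.Kam.not_KInj_ge_five h hj⟩

end Pool.Agent.Results.MP_ca28bb_gt.MonoIffRankLeFour
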